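import Pool.Agent.X171.SD.Ultra

/-!
# A strong `d`-space whose square is not a strong `d`-space
-/

set_option autoImplicit false

open Set Filter Topology

namespace Pool.Agent.X171.SD

/-- the upper set `↑x` for the specialization order (`x ≤ y` iff `x ∈ closure {y}`) -/
def up {X : Type*} [TopologicalSpace X] (x : X) : Set X := {y | x ∈ closure {y}}

/-- non-empty directed subsets for the specialization order -/
def IsDir {X : Type*} [TopologicalSpace X] (D : Set X) : Prop :=
  D.Nonempty ∧ ∀ a ∈ D, ∀ b ∈ D, ∃ e ∈ D, a ∈ closure {e} ∧ b ∈ closure {e}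

/-- strong `d`-spaces -/
def IsStrongD (X : Type*) [TopologicalSpace X] : Prop :=
  T0Space X ∧ ∀ D : Set X, IsDir D → ∀ x : X, ∀ U : Set X, IsOpen U →
    (⋂ d ∈ D, up d) ∩ up x ⊆ U → ∃ d ∈ D, up d ∩ up x ⊆ U

/-- the points of the space -/
inductive Pt {ι : Type*} (u : ι → Ultrafilter ℕ)
  | c (n : ℕ)
  | w
  | x
  | m (k : ℕ)
  | p (i : ι)

namespace Pt

variable {ι : Type*} {u : ι → Ultrafilter ℕ}

/-- the open sets -/
structure Op (U : Set (Pt u)) : Prop where
  c_up : ∀ n, c n ∈ U → (∀ n', n ≤ n' → c n' ∈ U) ∧ w ∈ U ∧ (∀ k, n ≤ k → m k ∈ U) ∧ ∀ i, p i ∈ U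
  w_c : w ∈ U → ∃ n, c n ∈ U
  x_up : x ∈ U → (∀ k, m k ∈ U) ∧ ∀ i, p i ∈ U
  p_m : ∀ i, p i ∈ U → {k | m k ∈ U} ∈ u i

instance : TopologicalSpace (Pt u) where
  IsOpen := Op
  isOpen_univ := ⟨fun _ _ => ⟨fun _ _ => trivial, trivial, fun _ _ => trivial, fun _ => trivial⟩,
    fun _ => ⟨0, trivial⟩, fun _ => ⟨fun _ => trivial, fun _ => trivial⟩, fun i _ => by
      have : {k | (m k : Pt u) ∈ (univ : Set (Pt u))} = univ := by ext; simp
      rw [this]; exact univ_mem⟩
  isOpen_inter := by
    rintro U V hU hV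
    refine ⟨fun n hn => ?_, fun hw => ?_, fun hx => ?_, fun i hi => ?_⟩
    · obtain ⟨a1, a2, a3, a4⟩ := hU.c_up n hn.1
      obtain ⟨b1, b2, b3, b4⟩ := hV.c_up n hn.2
      exact ⟨fun n' h => ⟨a1 n' h, b1 n' h⟩, ⟨a2, b2⟩, fun k h => ⟨a3 k h, b3 k h⟩,
        fun i => ⟨a4 i, b4 i⟩⟩
    · obtain ⟨n, hn⟩ := hU.w_c hw.1
      obtain ⟨n', hn'⟩ := hV.w_c hw.2
      exact ⟨max n n', (hU.c_up n hn).1 _ (le_max_left _ _), (hV.c_up n' hn').1 _ (le_max_right _ _)⟩
    · exact ⟨fun k => ⟨(hU.x_up hx.1).1 k, (hV.x_up hx.2).1 k⟩,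
        fun i => ⟨(hU.x_up hx.1).2 i, (hV.x_up hx.2).2 i⟩⟩
    · exact inter_mem (hU.p_m i hi.1) (hV.p_m i hi.2)
  isOpen_sUnion := by
    rintro S hS
    refine ⟨?_, ?_, ?_, ?_⟩
    · rintro n ⟨U, hU, hn⟩
      obtain ⟨a1, a2, a3, a4⟩ := (hS U hU).c_up n hn
      exact ⟨fun n' h => ⟨U, hU, a1 n' h⟩, ⟨U, hU, a2⟩, fun k h => ⟨U, hU, a3 k h⟩,
        fun i => ⟨U, hU, a4 i⟩⟩
    · rintro ⟨U, hU, hw⟩
      obtain ⟨n, hn⟩ := (hS U hU).w_c hw
      exact ⟨n, U, hU, hn⟩
    · rintro ⟨U, hU, hx⟩
      exact ⟨fun k => ⟨U, hU, ((hS U hU).x_up hx).1 k⟩, fun i => ⟨U, hU, ((hS U hU).x_up hx).2 i⟩⟩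
    · rintro i ⟨U, hU, hi⟩
      exact mem_of_superset ((hS U hU).p_m i hi) fun k hk => ⟨U, hU, hk⟩

lemma isOpen_iff {U : Set (Pt u)} : IsOpen U ↔ Op U := Iff.rfl

/-- the order -/
def le : Pt u → Pt u → Prop
  | c n, c n' => n ≤ n'
  | c _, w => True
  | c _, x => False
  | c n, m k => n ≤ k
  | c _, p _ => True
  | w, w => True
  | w, p _ => True
  | w, _ => False
  | x, x => True
  | x, m _ => True
  | x, p _ => True
  | x, _ => False
  | m k, m k' => k = k'
  | m _, _ => False
  | p i, p j => i = j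
  | p _, _ => False

lemma le_up {U : Set (Pt u)} (hU : Op U) {a b : Pt u} (ha : a ∈ U) (h : le a b) : b ∈ U := by
  cases a <;> cases b <;> simp only [le] at h
  · exact (hU.c_up _ ha).1 _ h
  · exact (hU.c_up _ ha).2.1
  · exact (hU.c_up _ ha).2.2.1 _ h
  · exact (hU.c_up _ ha).2.2.2 _
  · exact ha
  · obtain ⟨n, hn⟩ := hU.w_c ha
    exact (hU.c_up _ hn).2.2.2 _
  · exact ha
  · exact (hU.x_up ha).1 _
  · exact (hU.x_up ha).2 _
  · rw [← h]; exact ha
  · rw [← h]; exact ha

lemma ge_mem (hu : ∀ i, (u i : Filter ℕ) ≤ cofinite) (i : ι) (n : ℕ) : {k | n ≤ k} ∈ u i := by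
  apply hu i
  rw [mem_cofinite]
  exact (Set.finite_Iio n).subset fun k hk => by simpa using hk

lemma op_c (hu : ∀ i, (u i : Filter ℕ) ≤ cofinite) (n : ℕ) : Op {b : Pt u | le (c n) b} where
  c_up := fun _ hj => ⟨fun _ h => le_trans hj h, trivial, fun _ h => le_trans hj h, fun _ => trivial⟩
  w_c := fun _ => ⟨n, le_refl n⟩
  x_up := fun h => h.elim
  p_m := fun i _ => ge_mem hu i n

lemma op_x : Op {b : Pt u | le x b} where
  c_up := fun j hj => hj.elim
  w_c := fun h => h.elim
  x_up := fun _ => ⟨fun _ => trivial, fun _ => trivial⟩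
  p_m := fun i _ => by
    have : {k | (m k : Pt u) ∈ {b : Pt u | le x b}} = univ := by ext; simp [le]
    rw [this]; exact univ_mem

lemma op_m (k : ℕ) : Op ({m k} : Set (Pt u)) where
  c_up := fun j hj => by simp at hj
  w_c := fun h => by simp at h
  x_up := fun h => by simp at h
  p_m := fun i h => by simp at h

/-- the basic neighbourhoods of `p i` -/
def bx (u : ι → Ultrafilter ℕ) (i : ι) (B : Set ℕ) : Set (Pt u) :=
  {b | b = p i ∨ ∃ k ∈ B, b = m k}

lemma op_bx {i : ι} {B : Set ℕ} (hB : B ∈ u i) : Op (bx u i B) where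
  c_up := fun j hj => by simp [bx] at hj
  w_c := fun h => by simp [bx] at h
  x_up := fun h => by simp [bx] at h
  p_m := fun j h => by
    have hj : j = i := by simpa [bx] using h
    subst hj
    refine mem_of_superset hB fun k hk => Or.inr ⟨k, hk, rfl⟩

/-- the specialization order -/
lemma mem_closure_iff' (hu : ∀ i, (u i : Filter ℕ) ≤ cofinite) (a b : Pt u) :
    a ∈ closure ({b} : Set (Pt u)) ↔ le a b := by
  have key : a ∈ closure ({b} : Set (Pt u)) ↔ ∀ U : Set (Pt u), Op U → a ∈ U → b ∈ U := by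
    rw [mem_closure_iff]
    constructor
    · intro h U hU ha
      obtain ⟨z, hz1, hz2⟩ := h U hU ha
      rw [mem_singleton_iff] at hz2
      rwa [← hz2]
    · intro h U hU ha
      exact ⟨b, h U hU ha, rfl⟩
  rw [key]
  constructor
  · intro h
    cases a with
    | c n => exact h _ (op_c hu n) (le_refl n)
    | w =>
      have h1 : ∀ n, le (c n) b := fun n => h _ (op_c hu n) trivial
      cases b with
      | c j => exact absurd (h1 (j + 1)) (by simp [le])
      | w => trivial
      | x => exact (h1 0).elim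
      | m k => exact absurd (h1 (k + 1)) (by simp [le])
      | p i => trivial
    | x => exact h _ op_x trivial
    | m k =>
      have h1 : b = m k := h _ (op_m k) rfl
      rw [h1]; exact rfl
    | p i =>
      have h1 := h _ (op_bx (univ_mem : (univ : Set ℕ) ∈ u i)) (Or.inl rfl)
      rcases h1 with h1 | ⟨k, -, h1⟩
      · rw [h1]; exact rfl
      · exfalso
        have hk : ({k}ᶜ : Set ℕ) ∈ u i := hu i (by rw [mem_cofinite, compl_compl]; exact finite_singleton k)
        rcases h _ (op_bx hk) (Or.inl rfl) with h2 | ⟨k', hk', h2⟩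
        · rw [h2] at h1; simp at h1
        · rw [h2] at h1
          exact hk' (by simpa using h1)
  · intro h U hU ha
    exact le_up hU ha h

lemma le_refl' (a : Pt u) : le a a := by cases a <;> simp [le]

lemma le_antisymm' {a b : Pt u} (h : le a b) (h' : le b a) : a = b := by
  cases a <;> cases b <;> simp only [le] at h h' <;> try rfl
  · congr; omega
  · rw [h]
  · rw [h]

lemma t0 (hu : ∀ i, (u i : Filter ℕ) ≤ cofinite) : T0Space (Pt u) := by
  refine ⟨fun a b hab => ?_⟩
  have h1 : a ∈ closure ({b} : Set (Pt u)) := specializes_iff_mem_closure.1 hab.specializes'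
  have h2 : b ∈ closure ({a} : Set (Pt u)) := specializes_iff_mem_closure.1 hab.specializes
  rw [mem_closure_iff' hu] at h1 h2
  exact le_antisymm' h1 h2

lemma mem_up (hu : ∀ i, (u i : Filter ℕ) ≤ cofinite) {a b : Pt u} : b ∈ up a ↔ le a b :=
  mem_closure_iff' hu a b

/-- the space is a strong `d`-space when the ultrafilters are dense -/
theorem isStrongD (hu : ∀ i, (u i : Filter ℕ) ≤ cofinite)
    (hd : ∀ S : Set ℕ, (∀ i, S ∈ u i) → Sᶜ.Finite) : IsStrongD (Pt u) := by
  refine ⟨t0 hu, ?_⟩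
  rintro D ⟨hne, hdir⟩ y U hU hsub
  have hU' : Op U := hU
  simp only [mem_closure_iff' hu] at hdir
  by_cases hmax : ∃ e ∈ D, ∀ d ∈ D, le d e
  · obtain ⟨e, he, hle⟩ := hmax
    refine ⟨e, he, fun z hz => hsub ⟨?_, hz.2⟩⟩
    rw [mem_iInter₂]
    intro d hd'
    have h1 : le e z := (mem_up hu).1 hz.1
    rw [mem_up hu]
    have h2 := hle d hd'
    -- transitivity through open sets
    have h3 : d ∈ closure ({e} : Set (Pt u)) := (mem_closure_iff' hu d e).2 h2
    have h4 : e ∈ closure ({z} : Set (Pt u)) := (mem_closure_iff' hu e z).2 h1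
    have h5 : d ∈ closure ({z} : Set (Pt u)) :=
      closure_minimal (singleton_subset_iff.2 h4) isClosed_closure h3
    exact (mem_closure_iff' hu d z).1 h5
  · push Not at hmax
    -- every element of `D` has a strictly larger one in `D`
    have hbig : ∀ d ∈ D, ∃ e ∈ D, le d e ∧ e ≠ d := by
      intro d hd'
      obtain ⟨d', hd1, hd2⟩ := hmax d hd'
      obtain ⟨e, he, h1, h2⟩ := hdir d hd' d' hd1
      refine ⟨e, he, h1, ?_⟩
      rintro rfl
      exact hd2 h2
    have hnm : ∀ k, m k ∉ D := by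
      intro k hk
      obtain ⟨e, -, h1, h2⟩ := hbig _ hk
      cases e <;> simp only [le] at h1
      exact h2 (by rw [h1])
    have hnp : ∀ i, p i ∉ D := by
      intro i hi
      obtain ⟨e, -, h1, h2⟩ := hbig _ hi
      cases e <;> simp only [le] at h1
      exact h2 (by rw [h1])
    have hnx : (x : Pt u) ∉ D := by
      intro hx
      obtain ⟨e, he, h1, h2⟩ := hbig _ hx
      cases e with
      | c n => exact h1.elim
      | w => exact h1.elim
      | x => exact h2 rfl
      | m k => exact hnm k he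
      | p i => exact hnp i he
    have hnw : (w : Pt u) ∉ D := by
      intro hw
      obtain ⟨e, he, h1, h2⟩ := hbig _ hw
      cases e with
      | c n => exact h1.elim
      | w => exact h2 rfl
      | x => exact h1.elim
      | m k => exact h1.elim
      | p i => exact hnp i he
    have hc : ∀ d ∈ D, ∃ n, d = c n := by
      intro d hd'
      cases d with
      | c n => exact ⟨n, rfl⟩
      | w => exact absurd hd' hnw
      | x => exact absurd hd' hnx
      | m k => exact absurd hd' (hnm k)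
      | p i => exact absurd hd' (hnp i)
    have hunb : ∀ N, ∃ n, N ≤ n ∧ (c n : Pt u) ∈ D := by
      intro N
      induction N with
      | zero =>
        obtain ⟨d, hd'⟩ := hne
        obtain ⟨n, rfl⟩ := hc d hd'
        exact ⟨n, Nat.zero_le _, hd'⟩
      | succ N ih =>
        obtain ⟨n, hn, hD⟩ := ih
        obtain ⟨e, he, h1, h2⟩ := hbig _ hD
        obtain ⟨n', rfl⟩ := hc e he
        refine ⟨n', ?_, he⟩
        have h3 : n ≤ n' := h1
        have h4 : n' ≠ n := fun h => h2 (by rw [h])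
        omega
    have hw : (w : Pt u) ∈ ⋂ d ∈ D, up d := by
      rw [mem_iInter₂]
      intro d hd'
      obtain ⟨n, rfl⟩ := hc d hd'
      exact (mem_up hu).2 trivial
    have hp : ∀ i, (p i : Pt u) ∈ ⋂ d ∈ D, up d := by
      intro i
      rw [mem_iInter₂]
      intro d hd'
      obtain ⟨n, rfl⟩ := hc d hd'
      exact (mem_up hu).2 trivial
    -- if `w ∈ U` we are done
    have hdone : (w : Pt u) ∈ U → ∃ d ∈ D, up d ∩ up y ⊆ U := by
      intro hwU
      obtain ⟨n0, hn0⟩ := hU'.w_c hwU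
      obtain ⟨n, hn, hD⟩ := hunb n0
      refine ⟨_, hD, fun z hz => ?_⟩
      have h1 : le (c n) z := (mem_up hu).1 hz.1
      exact le_up hU' ((hU'.c_up _ hn0).1 n hn) h1
    cases y with
    | c j => exact hdone (hsub ⟨hw, (mem_up hu).2 trivial⟩)
    | w => exact hdone (hsub ⟨hw, (mem_up hu).2 trivial⟩)
    | x =>
      have hpU : ∀ i, (p i : Pt u) ∈ U := fun i => hsub ⟨hp i, (mem_up hu).2 trivial⟩
      have hfin := hd {k | m k ∈ U} fun i => hU'.p_m i (hpU i)
      obtain ⟨N, hN⟩ := hfin.bddAbove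
      obtain ⟨n, hn, hD⟩ := hunb (N + 1)
      refine ⟨_, hD, fun z hz => ?_⟩
      have h1 : le (c n) z := (mem_up hu).1 hz.1
      have h2 : le x z := (mem_up hu).1 hz.2
      cases z with
      | c j => exact h2.elim
      | w => exact h2.elim
      | x => exact h1.elim
      | m k =>
        by_contra hk
        have h3 : k ≤ N := hN (show k ∈ {k | m k ∈ U}ᶜ from hk)
        have h4 : n ≤ k := h1
        omega
      | p i => exact hpU i
    | m k =>
      obtain ⟨n, hn, hD⟩ := hunb (k + 1)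
      refine ⟨_, hD, fun z hz => ?_⟩
      have h1 : le (c n) z := (mem_up hu).1 hz.1
      have h2 : le (m k) z := (mem_up hu).1 hz.2
      exfalso
      cases z <;> simp only [le] at h1 h2
      omega
    | p i =>
      obtain ⟨n, hn, hD⟩ := hunb 0
      refine ⟨_, hD, fun z hz => ?_⟩
      have h2 : le (p i) z := (mem_up hu).1 hz.2
      have h3 : z = p i := by
        cases z <;> simp only [le] at h2
        rw [h2]
      rw [h3]
      exact hsub ⟨hp i, (mem_up hu).2 (le_refl' _)⟩

end Pt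

/-! ### Sums -/

section Sum

variable {X Y : Type*} [TopologicalSpace X] [TopologicalSpace Y]

lemma inl_mem_closure {a b : X} :
    (Sum.inl a : X ⊕ Y) ∈ closure {Sum.inl b} ↔ a ∈ closure {b} := by
  rw [← specializes_iff_mem_closure, ← specializes_iff_mem_closure]
  exact IsEmbedding.inl.isInducing.specializes_iff

lemma inr_mem_closure {a b : Y} :
    (Sum.inr a : X ⊕ Y) ∈ closure {Sum.inr b} ↔ a ∈ closure {b} := by
  rw [← specializes_iff_mem_closure, ← specializes_iff_mem_closure]
  exact IsEmbedding.inr.isInducing.specializes_iff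

lemma inl_notMem_closure {a : X} {b : Y} : (Sum.inl a : X ⊕ Y) ∉ closure {Sum.inr b} := by
  intro h
  have h1 : closure {(Sum.inr b : X ⊕ Y)} ⊆ range Sum.inr :=
    closure_minimal (by rintro _ rfl; exact mem_range_self b) isClosed_range_inr
  obtain ⟨z, hz⟩ := h1 h
  exact Sum.inr_ne_inl hz

lemma inr_notMem_closure {a : Y} {b : X} : (Sum.inr a : X ⊕ Y) ∉ closure {Sum.inl b} := by
  intro h
  have h1 : closure {(Sum.inl b : X ⊕ Y)} ⊆ range Sum.inl :=
    closure_minimal (by rintro _ rfl; exact mem_range_self b) isClosed_range_inl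
  obtain ⟨z, hz⟩ := h1 h
  exact Sum.inl_ne_inr hz

/-- the sum of two strong `d`-spaces is a strong `d`-space -/
theorem IsStrongD.sum (hX : IsStrongD X) (hY : IsStrongD Y) : IsStrongD (X ⊕ Y) := by
  have hX1 := hX.1
  have hY1 := hY.1
  refine ⟨⟨fun a b hab => ?_⟩, ?_⟩
  · have h1 : a ∈ closure {b} := specializes_iff_mem_closure.1 hab.specializes'
    have h2 : b ∈ closure {a} := specializes_iff_mem_closure.1 hab.specializes
    rcases a with a | a <;> rcases b with b | b
    · rw [inl_mem_closure, ← specializes_iff_mem_closure] at h1 h2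
      rw [(h1.antisymm h2).eq]
    · exact absurd h1 inl_notMem_closure
    · exact absurd h1 inr_notMem_closure
    · rw [inr_mem_closure, ← specializes_iff_mem_closure] at h1 h2
      rw [(h1.antisymm h2).eq]
  rintro D ⟨⟨d0, hd0⟩, hdir⟩ y U hU hsub
  cases d0 with
  | inl a0 =>
    -- all elements are in the left part
    have hall : ∀ d ∈ D, ∃ a, d = Sum.inl a := by
      intro d hd
      obtain ⟨e, -, h1, h2⟩ := hdir _ hd0 d hd
      cases e with
      | inl e =>
        cases d with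
        | inl a => exact ⟨a, rfl⟩
        | inr b => exact absurd h2 inr_notMem_closure
      | inr e => exact absurd h1 inl_notMem_closure
    have hD' : IsDir (Sum.inl ⁻¹' D : Set X) := by
      refine ⟨⟨a0, hd0⟩, fun a ha b hb => ?_⟩
      obtain ⟨e, he, h1, h2⟩ := hdir _ ha _ hb
      obtain ⟨e, rfl⟩ := hall e he
      exact ⟨e, he, inl_mem_closure.1 h1, inl_mem_closure.1 h2⟩
    cases y with
    | inl y =>
      obtain ⟨d, hd, h⟩ := hX.2 _ hD' y (Sum.inl ⁻¹' U) (hU.preimage continuous_inl) (by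
        rintro z ⟨hz1, hz2⟩
        apply hsub
        refine ⟨?_, inl_mem_closure.2 hz2⟩
        rw [mem_iInter₂] at hz1 ⊢
        intro d hd
        obtain ⟨a, rfl⟩ := hall d hd
        exact inl_mem_closure.2 (hz1 a hd))
      refine ⟨_, hd, ?_⟩
      rintro (z | z) ⟨hz1, hz2⟩
      · exact h ⟨inl_mem_closure.1 hz1, inl_mem_closure.1 hz2⟩
      · exact absurd hz1 inl_notMem_closure
    | inr y =>
      refine ⟨_, hd0, ?_⟩
      rintro (z | z) ⟨hz1, hz2⟩
      · exact absurd hz2 inr_notMem_closure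
      · exact absurd hz1 inl_notMem_closure
  | inr a0 =>
    have hall : ∀ d ∈ D, ∃ a, d = Sum.inr a := by
      intro d hd
      obtain ⟨e, -, h1, h2⟩ := hdir _ hd0 d hd
      cases e with
      | inr e =>
        cases d with
        | inr a => exact ⟨a, rfl⟩
        | inl b => exact absurd h2 inl_notMem_closure
      | inl e => exact absurd h1 inr_notMem_closure
    have hD' : IsDir (Sum.inr ⁻¹' D : Set Y) := by
      refine ⟨⟨a0, hd0⟩, fun a ha b hb => ?_⟩
      obtain ⟨e, he, h1, h2⟩ := hdir _ ha _ hb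
      obtain ⟨e, rfl⟩ := hall e he
      exact ⟨e, he, inr_mem_closure.1 h1, inr_mem_closure.1 h2⟩
    cases y with
    | inr y =>
      obtain ⟨d, hd, h⟩ := hY.2 _ hD' y (Sum.inr ⁻¹' U) (hU.preimage continuous_inr) (by
        rintro z ⟨hz1, hz2⟩
        apply hsub
        refine ⟨?_, inr_mem_closure.2 hz2⟩
        rw [mem_iInter₂] at hz1 ⊢
        intro d hd
        obtain ⟨a, rfl⟩ := hall d hd
        exact inr_mem_closure.2 (hz1 a hd))
      refine ⟨_, hd, ?_⟩
      rintro (z | z) ⟨hz1, hz2⟩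
      · exact absurd hz1 inr_notMem_closure
      · exact h ⟨inr_mem_closure.1 hz1, inr_mem_closure.1 hz2⟩
    | inl y =>
      refine ⟨_, hd0, ?_⟩
      rintro (z | z) ⟨hz1, hz2⟩
      · exact absurd hz1 inr_notMem_closure
      · exact absurd hz2 inl_notMem_closure

end Sum

/-! ### The square -/

lemma pi_mem_closure {I : Type*} {Z : I → Type*} [∀ i, TopologicalSpace (Z i)] {f g : ∀ i, Z i} :
    f ∈ closure {g} ↔ ∀ i, f i ∈ closure {g i} := by
  simp only [← specializes_iff_mem_closure]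
  exact specializes_pi

/-- There is a strong `d`-space `Y` (of size at most continuum) such that the product `Bool → Y`
is not a strong `d`-space. -/
theorem exists_square : ∃ (Y : Type) (_ : TopologicalSpace Y), IsStrongD Y ∧
    ¬ IsStrongD (Bool → Y) := by
  obtain ⟨p, q, hp, hq, hpd, hqd, hpq⟩ := exists_dense
  refine ⟨Pt p ⊕ Pt q, inferInstance, (Pt.isStrongD hp hpd).sum (Pt.isStrongD hq hqd), ?_⟩
  rintro ⟨-, H⟩
  choose B hB1 hB2 using hpq
  let f : ℕ → Bool → Pt p ⊕ Pt q := fun n b => if b then Sum.inl (Pt.c n) else Sum.inr (Pt.c n)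
  let y : Bool → Pt p ⊕ Pt q := fun b => if b then Sum.inl Pt.x else Sum.inr Pt.x
  let U : Set (Bool → Pt p ⊕ Pt q) := ⋃ i : Set ℕ, ⋃ j : Set ℕ,
    {g | g true ∈ Sum.inl '' Pt.bx p i (B i j) ∧ g false ∈ Sum.inr '' Pt.bx q j (B i j)ᶜ}
  have hU : IsOpen U := by
    refine isOpen_iUnion fun i => isOpen_iUnion fun j => ?_
    have h1 : IsOpen (Sum.inl '' Pt.bx p i (B i j) : Set (Pt p ⊕ Pt q)) :=
      isOpenMap_inl _ (Pt.op_bx (hB1 i j))
    have h2 : IsOpen (Sum.inr '' Pt.bx q j (B i j)ᶜ : Set (Pt p ⊕ Pt q)) :=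
      isOpenMap_inr _ (Pt.op_bx (hB2 i j))
    have c1 : Continuous fun g : Bool → Pt p ⊕ Pt q => g true := continuous_apply true
    have c2 : Continuous fun g : Bool → Pt p ⊕ Pt q => g false := continuous_apply false
    exact (h1.preimage c1).inter (h2.preimage c2)
  have hle : ∀ {n n' : ℕ}, n ≤ n' → f n ∈ closure {f n'} := by
    intro n n' h
    rw [pi_mem_closure]
    rintro (_ | _)
    · exact inr_mem_closure.2 ((Pt.mem_closure_iff' hq _ _).2 h)
    · exact inl_mem_closure.2 ((Pt.mem_closure_iff' hp _ _).2 h)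
  obtain ⟨d, ⟨n, rfl⟩, hd⟩ := H (range f) ⟨range_nonempty f, by
    rintro _ ⟨a, rfl⟩ _ ⟨b, rfl⟩
    exact ⟨f (max a b), mem_range_self _, hle (le_max_left _ _), hle (le_max_right _ _)⟩⟩ y U hU (by
    rintro g ⟨hg1, hg2⟩
    rw [mem_iInter₂] at hg1
    have h1 : ∀ n, f n ∈ closure {g} := fun n => hg1 _ (mem_range_self n)
    simp only [pi_mem_closure] at h1
    have h2 : y ∈ closure {g} := hg2
    rw [pi_mem_closure] at h2
    -- the first coordinate
    obtain ⟨i, hi⟩ : ∃ i, g true = Sum.inl (Pt.p i) := by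
      have a1 : ∀ n, (Sum.inl (Pt.c n) : Pt p ⊕ Pt q) ∈ closure {g true} := fun n => h1 n true
      have a2 : (Sum.inl Pt.x : Pt p ⊕ Pt q) ∈ closure {g true} := h2 true
      cases hg : g true with
      | inl z =>
        rw [hg] at a1 a2
        simp only [inl_mem_closure, Pt.mem_closure_iff' hp] at a1 a2
        cases z with
        | c j => exact a2.elim
        | w => exact a2.elim
        | x => exact (a1 0).elim
        | m k => exact absurd (a1 (k + 1)) (by simp [Pt.le])
        | p i => exact ⟨i, rfl⟩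
      | inr z =>
        rw [hg] at a2
        exact absurd a2 inl_notMem_closure
    obtain ⟨j, hj⟩ : ∃ j, g false = Sum.inr (Pt.p j) := by
      have a1 : ∀ n, (Sum.inr (Pt.c n) : Pt p ⊕ Pt q) ∈ closure {g false} := fun n => h1 n false
      have a2 : (Sum.inr Pt.x : Pt p ⊕ Pt q) ∈ closure {g false} := h2 false
      cases hg : g false with
      | inr z =>
        rw [hg] at a1 a2
        simp only [inr_mem_closure, Pt.mem_closure_iff' hq] at a1 a2
        cases z with
        | c j => exact a2.elim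
        | w => exact a2.elim
        | x => exact (a1 0).elim
        | m k => exact absurd (a1 (k + 1)) (by simp [Pt.le])
        | p i => exact ⟨i, rfl⟩
      | inl z =>
        rw [hg] at a2
        exact absurd a2 inr_notMem_closure
    refine mem_iUnion.2 ⟨i, mem_iUnion.2 ⟨j, ?_, ?_⟩⟩
    · rw [hi]; exact ⟨_, Or.inl rfl, rfl⟩
    · rw [hj]; exact ⟨_, Or.inl rfl, rfl⟩)
  -- the point `(m n, m n)`
  let g : Bool → Pt p ⊕ Pt q := fun b => if b then Sum.inl (Pt.m n) else Sum.inr (Pt.m n)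
  have hg : g ∈ U := by
    apply hd
    constructor
    · show f n ∈ closure {g}
      rw [pi_mem_closure]
      rintro (_ | _)
      · exact inr_mem_closure.2 ((Pt.mem_closure_iff' hq _ _).2 (le_refl n))
      · exact inl_mem_closure.2 ((Pt.mem_closure_iff' hp _ _).2 (le_refl n))
    · show y ∈ closure {g}
      rw [pi_mem_closure]
      rintro (_ | _)
      · exact inr_mem_closure.2 ((Pt.mem_closure_iff' hq _ _).2 trivial)
      · exact inl_mem_closure.2 ((Pt.mem_closure_iff' hp _ _).2 trivial)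
  obtain ⟨i, hi⟩ := mem_iUnion.1 hg
  obtain ⟨j, h1, h2⟩ := mem_iUnion.1 hi
  have h3 : n ∈ B i j := by
    obtain ⟨z, hz, he⟩ := h1
    have he' : z = Pt.m n := Sum.inl_injective he
    rw [he'] at hz
    rcases hz with hz | ⟨k, hk, hz⟩
    · simp at hz
    · rw [Pt.m.injEq] at hz
      rw [hz]; exact hk
  have h4 : n ∉ B i j := by
    obtain ⟨z, hz, he⟩ := h2
    have he' : z = Pt.m n := Sum.inr_injective he
    rw [he'] at hz
    rcases hz with hz | ⟨k, hk, hz⟩
    · simp at hz
    · rw [Pt.m.injEq] at hz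
      rw [hz]; exact hk
  exact h4 h3

end Pool.Agent.X171.SD
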