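import Mathlib

/-!
# Two disjoint dense sets of free ultrafilters on `ℕ`
-/

set_option autoImplicit false

open Set Filter

namespace Pool.Agent.X171.SD

open Classical in
/-- the members of an independent family on the countable set `Finset ℕ × Finset (Finset ℕ)` -/
def X (r : Set ℕ) : Set (Finset ℕ × Finset (Finset ℕ)) := {c | c.1.filter (· ∈ r) ∈ c.2}

/-- a bound which separates finitely many sets -/
lemma exists_sep (R : Finset (Set ℕ)) : ∃ N : ℕ, ∀ r ∈ R, ∀ r' ∈ R, r ≠ r' →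
    ∃ k < N, ¬ (k ∈ r ↔ k ∈ r') := by
  classical
  have h : ∀ q : Set ℕ × Set ℕ, ∃ k, q.1 ≠ q.2 → ¬ (k ∈ q.1 ↔ k ∈ q.2) := by
    intro q
    by_cases hq : q.1 = q.2
    · exact ⟨0, fun h => absurd hq h⟩
    · by_contra hcon
      push Not at hcon
      exact hq (Set.ext fun k => (hcon k).2)
  choose k hk using h
  refine ⟨(R ×ˢ R).sup k + 1, fun r hr r' hr' hne => ⟨k (r, r'), ?_, hk (r, r') hne⟩⟩
  exact Nat.lt_succ_of_le (Finset.le_sup (f := k) (Finset.mem_product.2 ⟨hr, hr'⟩))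

/-- independence -/
lemma independent (R : Finset (Set ℕ)) (ε : Set ℕ → Prop) :
    {c | ∀ r ∈ R, (c ∈ X r ↔ ε r)}.Infinite := by
  classical
  obtain ⟨N, hN⟩ := exists_sep R
  let c : ℕ → Finset ℕ × Finset (Finset ℕ) := fun n =>
    (Finset.range (N + n), (R.filter ε).image fun r => (Finset.range (N + n)).filter (· ∈ r))
  have hc : Function.Injective c := by
    intro a b hab
    have := congrArg (fun z => z.1.card) hab
    simp only [c, Finset.card_range] at this
    omega
  refine (Set.infinite_range_of_injective hc).mono ?_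
  rintro _ ⟨n, rfl⟩ r hr
  show (Finset.range (N + n)).filter (· ∈ r) ∈
    (R.filter ε).image (fun r => (Finset.range (N + n)).filter (· ∈ r)) ↔ ε r
  rw [Finset.mem_image]
  constructor
  · rintro ⟨r', hr', he⟩
    rw [Finset.mem_filter] at hr'
    by_cases h : r' = r
    · rw [← h]; exact hr'.2
    · exfalso
      obtain ⟨k, hk, hne⟩ := hN r' hr'.1 r hr h
      apply hne
      have h1 : k ∈ (Finset.range (N + n)).filter (· ∈ r') ↔
          k ∈ (Finset.range (N + n)).filter (· ∈ r) := by rw [he]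
      simpa [Finset.mem_filter, Finset.mem_range, show k < N + n by omega] using h1
  · intro h
    exact ⟨r, Finset.mem_filter.2 ⟨hr, h⟩, rfl⟩

/-- for an infinite set `B` and ultrafilters `p r` (`r ⊆ ℕ`) there is a free ultrafilter containing
`B` which is different from all `p r` -/
lemma exists_avoid {B : Set ℕ} (hB : B.Infinite) (p : Set ℕ → Ultrafilter ℕ) :
    ∃ q : Ultrafilter ℕ, (q : Filter ℕ) ≤ cofinite ∧ B ∈ q ∧ ∀ r, q ≠ p r := by
  classical
  -- an injection into `B`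
  have hinf : (({n | n ∈ B} : Set ℕ)).Infinite := hB
  let g : Finset ℕ × Finset (Finset ℕ) → ℕ := fun c => Nat.nth (· ∈ B) (Encodable.encode c)
  have hg : Function.Injective g :=
    (Nat.nth_injective hinf).comp Encodable.encode_injective
  have hgB : ∀ c, g c ∈ B := fun c => Nat.nth_mem_of_infinite hinf _
  let Z : Set ℕ → Set (Finset ℕ × Finset (Finset ℕ)) := fun r =>
    if g '' X r ∈ p r then (X r)ᶜ else X r
  let s : Set (Set (Finset ℕ × Finset (Finset ℕ))) := {S | (∃ r, S = Z r) ∨ Sᶜ.Finite}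
  have hne : (generate s).NeBot := by
    rw [generate_neBot_iff]
    intro t ht htf
    -- the members of the form `Z r`
    obtain ⟨R, hR⟩ : ∃ R : Finset (Set ℕ), ∀ S ∈ t, (∃ r ∈ R, S = Z r) ∨ Sᶜ.Finite := by
      have h1 : ∀ S ∈ t, ∃ r, S = Z r ∨ Sᶜ.Finite := by
        intro S hS
        rcases ht hS with ⟨r, hr⟩ | h
        · exact ⟨r, Or.inl hr⟩
        · exact ⟨∅, Or.inr h⟩
      choose! ρ hρ using h1
      refine ⟨htf.toFinset.image ρ, fun S hS => ?_⟩
      rcases hρ S hS with h | h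
      · exact Or.inl ⟨ρ S, Finset.mem_image.2 ⟨S, htf.mem_toFinset.2 hS, rfl⟩, h⟩
      · exact Or.inr h
    have hI := independent R (fun r => ¬ g '' X r ∈ p r)
    have hfin : (⋃ S ∈ {S ∈ t | Sᶜ.Finite}, Sᶜ).Finite :=
      (htf.subset (sep_subset _ _)).biUnion fun S hS => hS.2
    obtain ⟨c, hc1, hc2⟩ := (hI.sdiff hfin).nonempty
    refine ⟨c, ?_⟩
    intro S hS
    rcases hR S hS with ⟨r, hr, rfl⟩ | h
    · have h2 := hc1 r hr
      by_cases h3 : g '' X r ∈ p r
      · have h4 : c ∉ X r := fun h5 => (h2.1 h5) h3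
        simp only [Z, h3, if_true]
        exact h4
      · simp only [Z, h3, if_false]
        exact h2.2 h3
    · by_contra hcS
      exact hc2 (Set.mem_biUnion (show S ∈ {S ∈ t | Sᶜ.Finite} from ⟨hS, h⟩) hcS)
  let q0 : Ultrafilter (Finset ℕ × Finset (Finset ℕ)) := @Ultrafilter.of _ (generate s) hne
  have hq0 : (q0 : Filter _) ≤ generate s := Ultrafilter.of_le _
  have hmem : ∀ S ∈ s, S ∈ q0 := fun S hS => hq0 (mem_generate_of_mem hS)
  refine ⟨q0.map g, ?_, ?_, ?_⟩
  · intro S hS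
    rw [mem_cofinite] at hS
    show g ⁻¹' S ∈ q0
    refine hmem _ (Or.inr ?_)
    rw [← preimage_compl]
    exact hS.preimage hg.injOn
  · show g ⁻¹' B ∈ q0
    have : g ⁻¹' B = univ := eq_univ_of_forall hgB
    rw [this]
    exact univ_mem
  · intro r hr
    have h1 : g '' Z r ∈ q0.map g := by
      show g ⁻¹' (g '' Z r) ∈ q0
      rw [preimage_image_eq _ hg]
      exact hmem _ (Or.inl ⟨r, rfl⟩)
    rw [hr] at h1
    by_cases h3 : g '' X r ∈ p r
    · have h2 : Z r = (X r)ᶜ := if_pos h3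
      rw [h2] at h1
      have h4 := inter_mem h1 h3
      rw [← image_inter hg, compl_inter_self, image_empty] at h4
      exact empty_notMem _ h4
    · have h2 : Z r = X r := if_neg h3
      rw [h2] at h1
      exact h3 h1

/-- two disjoint dense families of free ultrafilters -/
theorem exists_dense : ∃ p q : Set ℕ → Ultrafilter ℕ,
    (∀ r, (p r : Filter ℕ) ≤ cofinite) ∧ (∀ r, (q r : Filter ℕ) ≤ cofinite) ∧
    (∀ S : Set ℕ, (∀ r, S ∈ p r) → Sᶜ.Finite) ∧ (∀ S : Set ℕ, (∀ r, S ∈ q r) → Sᶜ.Finite) ∧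
    ∀ r r', ∃ B : Set ℕ, B ∈ p r ∧ Bᶜ ∈ q r' := by
  classical
  have h1 : ∀ r : Set ℕ, ∃ u : Ultrafilter ℕ, (u : Filter ℕ) ≤ cofinite ∧ (r.Infinite → r ∈ u) := by
    intro r
    by_cases hr : r.Infinite
    · obtain ⟨u, hu1, hu2, -⟩ := exists_avoid hr (fun _ => hyperfilter ℕ)
      exact ⟨u, hu1, fun _ => hu2⟩
    · exact ⟨hyperfilter ℕ, hyperfilter_le_cofinite, fun h => absurd h hr⟩
  choose p hp1 hp2 using h1
  have h2 : ∀ r : Set ℕ, ∃ u : Ultrafilter ℕ, (u : Filter ℕ) ≤ cofinite ∧ (r.Infinite → r ∈ u) ∧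
      ∀ r', u ≠ p r' := by
    intro r
    by_cases hr : r.Infinite
    · obtain ⟨u, hu1, hu2, hu3⟩ := exists_avoid hr p
      exact ⟨u, hu1, fun _ => hu2, hu3⟩
    · obtain ⟨u, hu1, hu2, hu3⟩ := exists_avoid Set.infinite_univ p
      exact ⟨u, hu1, fun h => absurd h hr, hu3⟩
  choose q hq1 hq2 hq3 using h2
  refine ⟨p, q, hp1, hq1, ?_, ?_, ?_⟩
  · intro S hS
    by_contra hcon
    have h := inter_mem (hS Sᶜ) (hp2 Sᶜ hcon)
    rw [inter_compl_self] at h
    exact empty_notMem _ h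
  · intro S hS
    by_contra hcon
    have h := inter_mem (hS Sᶜ) (hq2 Sᶜ hcon)
    rw [inter_compl_self] at h
    exact empty_notMem _ h
  · intro r r'
    by_contra hcon
    push Not at hcon
    apply hq3 r' r
    apply Ultrafilter.coe_injective
    apply le_antisymm
    · intro B hB
      by_contra h
      have h3 : Bᶜ ∈ q r' := Ultrafilter.compl_mem_iff_notMem.2 h
      exact hcon B hB h3
    · intro B hB
      by_contra h
      have h3 : Bᶜ ∈ p r := Ultrafilter.compl_mem_iff_notMem.2 h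
      exact hcon Bᶜ h3 (by rw [compl_compl]; exact hB)

end Pool.Agent.X171.SD
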